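import Mathlib

namespace Pool.Agent.Results.MP_cf426b_al.RankThree

/-- The commuting graph of a semigroup: vertices are the non-central elements, and distinct
vertices are adjacent when they commute. -/
def commGraph (S : Type) [Semigroup S] : SimpleGraph {x : S // ¬ ∀ s : S, x * s = s * x} where
  Adj x y := x ≠ y ∧ x.1 * y.1 = y.1 * x.1
  symm := ⟨fun _ _ h => ⟨h.1.symm, h.2.symm⟩⟩
  loopless := ⟨fun _ h => h.1 rfl⟩

/-- `S` has rank at most `d`: it is generated as a semigroup by at most `d` elements. -/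
def RankLE (S : Type) [Semigroup S] (d : ℕ) : Prop :=
  ∃ X : Finset S, X.card ≤ d ∧ Subsemigroup.closure (X : Set S) = ⊤

inductive T (n : ℕ) : Type
  | u (a : ZMod n) (e : Bool) : T n
  | m (i l : ZMod n) : T n
  | z : T n

variable {n : ℕ}

def sg (n : ℕ) (e : Bool) : ZMod n := if e then -1 else 1

def Near (d : ZMod n) : Prop := d = 0 ∨ d = 1 ∨ d = -1

theorem near_neg (d : ZMod n) : Near (-d) ↔ Near d := by
  unfold Near
  constructor
  · rintro (h | h | h)
    · left; linear_combination -h
    · right; right; linear_combination -h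
    · right; left; linear_combination -h
  · rintro (h | h | h)
    · left; linear_combination -h
    · right; right; linear_combination -h
    · right; left; linear_combination -h

open Classical in
noncomputable def mulT : T n → T n → T n
  | .u a e, .u b f => .u (a + sg n e * b) (xor e f)
  | .u a e, .m i l => .m (a + sg n e * i) l
  | .m i l, .u a e => .m i (sg n e * (l - a))
  | .m i l, .m j k => if Near (l - j) then .z else .m i k
  | .z, _ => .z
  | _, .z => .z

theorem near_key (e : Bool) (l a j : ZMod n) :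
    Near (sg n e * (l - a) - j) ↔ Near (l - (a + sg n e * j)) := by
  cases e
  · simp only [sg]; rw [show (if false = true then (-1 : ZMod n) else 1) = 1 from rfl]
    rw [show 1 * (l - a) - j = l - (a + 1 * j) by ring]
  · simp only [sg, if_true]
    rw [show -1 * (l - a) - j = -(l - (a + -1 * j)) by ring, near_neg]

theorem sg_xor (e f : Bool) : sg n (xor e f) = sg n e * sg n f := by
  cases e <;> cases f <;> simp [sg]

theorem sg_sq (e : Bool) : sg n e * sg n e = 1 := by cases e <;> simp [sg]

noncomputable instance : Semigroup (T n) where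
  mul := mulT
  mul_assoc := by
    intro x y w
    show mulT (mulT x y) w = mulT x (mulT y w)
    rcases x with ⟨a, e⟩ | ⟨i, l⟩ | _ <;> rcases y with ⟨b, f⟩ | ⟨j, k⟩ | _ <;>
      rcases w with ⟨c, g⟩ | ⟨p, q⟩ | _ <;> simp only [mulT]
    · rw [sg_xor, Bool.xor_assoc]; congr 1; ring
    · rw [sg_xor]; congr 1; ring
    · split_ifs <;> simp only [mulT]
    · rw [sg_xor]; congr 1
      linear_combination (sg n g * c) * sg_sq (n := n) f
    · rw [near_key]
    · split_ifs <;> simp only [mulT]
    · split_ifs <;> simp_all only [mulT, if_true, if_false]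
    · split_ifs <;> simp only [mulT]

theorem uu (a b : ZMod n) (e f : Bool) :
    (T.u a e * T.u b f : T n) = .u (a + sg n e * b) (xor e f) := rfl
theorem um (a i l : ZMod n) (e : Bool) : (T.u a e * T.m i l : T n) = .m (a + sg n e * i) l := rfl
theorem mu (a i l : ZMod n) (e : Bool) : (T.m i l * T.u a e : T n) = .m i (sg n e * (l - a)) := rfl
open Classical in
theorem mm (i l j k : ZMod n) :
    (T.m i l * T.m j k : T n) = if Near (l - j) then .z else .m i k := rfl
theorem zm (x : T n) : (T.z * x : T n) = .z := by cases x <;> rfl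
theorem mz (x : T n) : (x * T.z : T n) = .z := by cases x <;> rfl

instance [NeZero n] : Finite (T n) := by
  refine Finite.of_surjective
    (fun p : (ZMod n × Bool) ⊕ (ZMod n × ZMod n) ⊕ Unit => match p with
      | .inl p => T.u p.1 p.2
      | .inr (.inl p) => T.m p.1 p.2
      | .inr (.inr _) => T.z) ?_
  rintro (⟨a, e⟩ | ⟨i, l⟩ | _)
  · exact ⟨.inl (a, e), rfl⟩
  · exact ⟨.inr (.inl (i, l)), rfl⟩
  · exact ⟨.inr (.inr ()), rfl⟩

theorem rank3 [NeZero n] : RankLE (T n) 3 := by
  classical
  refine ⟨{T.u 1 false, T.u 0 true, T.m 0 0}, Finset.card_le_three, ?_⟩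
  rw [eq_top_iff]
  set C := Subsemigroup.closure
    ((({T.u 1 false, T.u 0 true, T.m 0 0} : Finset (T n))) : Set (T n)) with hC
  have h1 : T.u 1 false ∈ C := Subsemigroup.subset_closure (by simp)
  have h2 : T.u 0 true ∈ C := Subsemigroup.subset_closure (by simp)
  have h3 : T.m 0 0 ∈ C := Subsemigroup.subset_closure (by simp)
  have h4 : ∀ k : ℕ, T.u ((k : ZMod n) + 1) false ∈ C := by
    intro k
    induction k with
    | zero => simpa using h1
    | succ k ih =>
      have := C.mul_mem ih h1
      rw [uu] at this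
      simpa [sg] using this
  have h5 : ∀ a : ZMod n, T.u a false ∈ C := by
    intro a
    have := h4 (a - 1).val
    simpa using this
  rintro (⟨a, e⟩ | ⟨i, l⟩ | _) -
  · cases e
    · exact h5 a
    · have := C.mul_mem (h5 a) h2
      rw [uu] at this
      simpa [sg] using this
  · have := C.mul_mem (C.mul_mem (h5 i) h3) (h5 (-l))
    rw [um, mu] at this
    simpa [sg] using this
  · have := C.mul_mem h3 h3
    rw [mm] at this
    simpa [Near] using this

theorem one_central (s : T n) : T.u 0 false * s = s * T.u 0 false := by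
  rcases s with ⟨a, e⟩ | ⟨i, l⟩ | _
  · simp [uu, sg]
  · simp [um, mu, sg]
  · rw [zm, mz]

theorem nc_m (h : ZMod n) (h0 : h ≠ 0) (i l : ZMod n) : ¬ ∀ s : T n, T.m i l * s = s * T.m i l := by
  intro H
  have := H (T.u h false)
  simp [um, mu, sg] at this
  exact h0 this

theorem nc_c (h : ZMod n) (h0 : h ≠ 0) : ¬ ∀ s : T n, T.u h false * s = s * T.u h false := by
  intro H
  have := H (T.m 0 0)
  simp [um, mu, sg] at this
  exact h0 this

theorem nc_r (h2 : (2 : ZMod n) ≠ 0) (i : ZMod n) :
    ¬ ∀ s : T n, T.u (2 * i) true * s = s * T.u (2 * i) true := by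
  intro H
  have := H (T.m (i + 1) 0)
  simp only [um, mu, sg, if_true, T.m.injEq] at this
  apply h2
  linear_combination -this.1

theorem reach (x y : {x : T n // ¬ ∀ s : T n, x * s = s * x}) (h : x.1 * y.1 = y.1 * x.1) :
    (commGraph (T n)).Reachable x y := by
  by_cases hxy : x = y
  · rw [hxy]
  · exact SimpleGraph.Adj.reachable ⟨hxy, h⟩

theorem conn [NeZero n] (h : ZMod n) (h0 : h ≠ 0) (hh : -h = h) (h2 : (2 : ZMod n) ≠ 0) :
    (commGraph (T n)).Connected := by
  let c : {x : T n // ¬ ∀ s : T n, x * s = s * x} := ⟨_, nc_c h h0⟩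
  let M : ZMod n → ZMod n → {x : T n // ¬ ∀ s : T n, x * s = s * x} :=
    fun i l => ⟨_, nc_m h h0 i l⟩
  have hu : ∀ a e (hx : ¬ ∀ s : T n, T.u a e * s = s * T.u a e),
      (commGraph (T n)).Reachable ⟨_, hx⟩ c := by
    intro a e hx
    apply reach
    show T.u a e * T.u h false = T.u h false * T.u a e
    cases e <;> simp [uu, sg, add_comm, hh]
  have hstep : ∀ i l, (commGraph (T n)).Reachable (M i l) (M (i + 1) l) := by
    intro i l
    refine (reach (M i l) (M l (i + 1)) ?_).trans (reach _ _ ?_)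
    · show T.m i l * T.m l (i + 1) = T.m l (i + 1) * T.m i l
      simp [mm, Near]
    · show T.m l (i + 1) * T.m (i + 1) l = T.m (i + 1) l * T.m l (i + 1)
      simp [mm, Near]
  have hsteps : ∀ (k : ℕ) i l, (commGraph (T n)).Reachable (M i l) (M (i + k) l) := by
    intro k i l
    induction k with
    | zero => simp
    | succ k ih =>
      refine ih.trans ?_
      rw [Nat.cast_succ, ← add_assoc]
      exact hstep _ _
  have hall : ∀ x, (commGraph (T n)).Reachable x c := by
    rintro ⟨⟨a, e⟩ | ⟨i, l⟩ | _, hx⟩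
    · exact hu a e hx
    · have h1 := hsteps (l - i).val i l
      simp only [ZMod.natCast_val, ZMod.cast_id', id_eq, add_sub_cancel] at h1
      refine h1.trans ((reach (M l l) ⟨_, nc_r h2 l⟩ ?_).trans (hu _ _ _))
      show T.m l l * T.u (2 * l) true = T.u (2 * l) true * T.m l l
      simp only [um, mu, sg, if_true, T.m.injEq]
      constructor <;> ring
    · exact absurd (fun s => by rw [zm, mz]) hx
  haveI : Nonempty {x : T n // ¬ ∀ s : T n, x * s = s * x} := ⟨c⟩
  exact ⟨fun x y => (hall x).trans (hall y).symm⟩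

def Lev (k : ℕ) : T n → Prop
  | .u _ _ => True
  | .m i l => ∃ t : ℤ, |t| ≤ 4 * k ∧ 2 * (i - l) = (t : ZMod n)
  | .z => True

theorem near_int (d : ZMod n) (h : Near d) : ∃ t : ℤ, |t| ≤ 1 ∧ d = (t : ZMod n) := by
  rcases h with h | h | h
  · exact ⟨0, by simp, by simp [h]⟩
  · exact ⟨1, by simp, by simp [h]⟩
  · exact ⟨-1, by simp, by simp [h]⟩

theorem lev_step (k : ℕ) (x y : {x : T n // ¬ ∀ s : T n, x * s = s * x})
    (h : (commGraph (T n)).Adj x y) (hx : Lev k x.1) : Lev (k + 1) y.1 := by
  obtain ⟨x, hx0⟩ := x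
  obtain ⟨y, hy0⟩ := y
  obtain ⟨hne, hc⟩ := h
  have hne' : x ≠ y := fun e => hne (Subtype.ext e)
  simp only at hc hx ⊢
  rcases y with ⟨b, f⟩ | ⟨j, q⟩ | _
  · trivial
  · rcases x with ⟨a, e⟩ | ⟨i, l⟩ | _
    · simp only [um, mu, T.m.injEq] at hc
      cases e
      · exfalso
        have : a = 0 := by simpa [sg] using hc.1
        subst this
        exact hx0 one_central
      · simp only [sg, if_true] at hc
        exact ⟨0, by positivity, by push_cast; linear_combination -hc.1 - hc.2⟩
    · obtain ⟨t, ht, he⟩ := hx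
      rw [mm, mm] at hc
      by_cases h1 : Near (l - j) <;> by_cases h2 : Near (q - i)
      · obtain ⟨t1, a1, b1⟩ := near_int _ h1
        obtain ⟨t2, a2, b2⟩ := near_int _ h2
        refine ⟨-t - 2 * t1 - 2 * t2, ?_, ?_⟩
        · rw [abs_le] at *
          push_cast
          constructor <;> linarith [ht.1, ht.2, a1.1, a1.2, a2.1, a2.2]
        · push_cast
          linear_combination -he - 2 * b1 - 2 * b2
      · simp [h1, h2] at hc
      · simp [h1, h2] at hc
      · simp only [h1, h2, if_false, T.m.injEq] at hc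
        exact absurd (by rw [hc.1, hc.2]) hne'
    · exact absurd (fun s => by rw [zm, mz]) hx0
  · trivial

theorem lev_walk {x y : {x : T n // ¬ ∀ s : T n, x * s = s * x}} (w : (commGraph (T n)).Walk x y) :
    ∀ k, Lev k x.1 → Lev (k + w.length) y.1 := by
  induction w with
  | nil => intro k h; simpa using h
  | cons ha w ih =>
    intro k h
    have := ih (k + 1) (lev_step k _ _ ha h)
    rw [SimpleGraph.Walk.length_cons]
    rwa [add_assoc, add_comm 1] at this

theorem result : ∀ D : ℕ, ∃ (S : Type) (_ : Semigroup S), Finite S ∧ RankLE S 3 ∧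
    (commGraph S).Connected ∧ (D : ℕ∞) ≤ (commGraph S).ediam := by
  intro D
  haveI : NeZero (8 * D + 4) := ⟨by omega⟩
  have hz : ∀ t : ℤ, 0 < t → t < 8 * D + 4 → ((t : ℤ) : ZMod (8 * D + 4)) ≠ 0 := by
    intro t h1 h2 h
    rw [ZMod.intCast_zmod_eq_zero_iff_dvd] at h
    have := Int.le_of_dvd h1 h
    push_cast at this
    omega
  have h0 : (((4 * D + 2 : ℤ)) : ZMod (8 * D + 4)) ≠ 0 := hz _ (by omega) (by omega)
  have hh : -(((4 * D + 2 : ℤ)) : ZMod (8 * D + 4)) = ((4 * D + 2 : ℤ) : ZMod (8 * D + 4)) := by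
    have : ((8 * D + 4 : ℕ) : ZMod (8 * D + 4)) = 0 := ZMod.natCast_self _
    push_cast at this ⊢
    linear_combination -this
  have h2 : (2 : ZMod (8 * D + 4)) ≠ 0 := by
    have := hz 2 (by omega) (by omega)
    simpa using this
  have hc := conn _ h0 hh h2
  refine ⟨T (8 * D + 4), inferInstance, inferInstance, rank3, hc, ?_⟩
  let x : {x : T (8 * D + 4) // ¬ ∀ s, x * s = s * x} := ⟨_, nc_m _ h0 0 0⟩
  let y : {x : T (8 * D + 4) // ¬ ∀ s, x * s = s * x} := ⟨_, nc_m _ h0 (2 * D + 1) 0⟩
  refine le_trans ?_ (SimpleGraph.edist_le_ediam (u := x) (v := y))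
  obtain ⟨w, hw⟩ := (hc x y).exists_walk_length_eq_edist
  rw [← hw]
  norm_cast
  by_contra hlt
  obtain ⟨t, ht, he⟩ := lev_walk w 0 ⟨0, by simp, by simp⟩
  rw [abs_le] at ht
  apply hz (4 * D + 2 - t) (by push_cast at ht; omega) (by push_cast at ht; omega)
  push_cast
  linear_combination he

end Pool.Agent.Results.MP_cf426b_al.RankThree
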